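import Pool.Agent.R221.PL.Cases

open MeasureTheory Filter Topology Set
open scoped ENNReal NNReal BoundedContinuousFunction

namespace Pool.Agent.Results.MP_bbfed3_an.DiscreteToContinuum

/-- `d`-dimensional Euclidean space. -/
abbrev E (d : ℕ) : Type := EuclideanSpace ℝ (Fin d)

/-- The term `r ^ γ / γ`, read as `log r` when `γ = 0` (used for `r > 0`). -/
noncomputable def powTerm (γ r : ℝ) : ℝ := if γ = 0 then Real.log r else r ^ γ / γ

/-- The interaction potential `W(x) = -|x|^α/α + |x|^β/β` (exponent `0` read as a logarithm).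
At the origin it takes its limit value: `+∞` if `α ≤ 0` and `0` if `α > 0`
(here always `α < β`). -/
noncomputable def W {d : ℕ} (α β : ℝ) (x : E d) : EReal :=
  if x = 0 then (if α ≤ 0 then ⊤ else 0)
  else ((-powTerm α ‖x‖ + powTerm β ‖x‖ : ℝ) : EReal)

/-- The continuum energy `E[ρ] = (1/2) ∬ W(x-y) dρ(x) dρ(y)`, the double integral being the
integral of the positive part minus the integral of the (bounded) negative part. -/
noncomputable def energy {d : ℕ} (α β : ℝ) (ρ : Measure (E d)) : EReal :=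
  (((∫⁻ x, ∫⁻ y, (W α β (x - y)).toENNReal ∂ρ ∂ρ : ℝ≥0∞) : EReal)
    - ((∫⁻ x, ∫⁻ y, (-W α β (x - y)).toENNReal ∂ρ ∂ρ : ℝ≥0∞) : EReal)) / 2

/-- The discrete energy `E_N[X] = (1/2) ∑_{i ≠ j} W(X_i - X_j)`. -/
noncomputable def discreteEnergy {d : ℕ} (α β : ℝ) {N : ℕ} (X : Fin N → E d) : EReal :=
  (∑ i, ∑ j, if i = j then 0 else W α β (X i - X j)) / 2

/-- Global minimizers of the discrete energy. -/
def IsDiscreteMinimizer {d : ℕ} (α β : ℝ) {N : ℕ} (X : Fin N → E d) : Prop :=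
  ∀ Y : Fin N → E d, discreteEnergy α β X ≤ discreteEnergy α β Y

/-- Global minimizers of the continuum energy among Borel probability measures. -/
def IsContinuumMinimizer {d : ℕ} (α β : ℝ) (ρ : Measure (E d)) : Prop :=
  IsProbabilityMeasure ρ ∧
    ∀ ρ' : Measure (E d), IsProbabilityMeasure ρ' → energy α β ρ ≤ energy α β ρ'

section bridge

open Pool.Agent.R221.PL

variable {d : ℕ} {α β : ℝ}

lemma W_eq (h : α < β) (x : E d) :
    W α β x = ((wfun α β x : ℝ≥0∞) : EReal) + ((prof α β 1 : ℝ) : EReal) := by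
  unfold W wfun
  by_cases hx : x = 0
  · subst hx
    rw [if_pos rfl, norm_zero]
    unfold gfun
    rw [if_pos le_rfl]
    split_ifs with hα
    · simp
    · push Not at hα
      have h1 : prof α β 1 ≤ 0 := by
        have hβ : 0 < β := hα.trans h
        unfold prof pw
        rw [if_neg hα.ne', if_neg hβ.ne', Real.one_rpow, Real.one_rpow]
        have := one_div_lt_one_div_of_lt hα h
        linarith
      rw [EReal.coe_ennreal_ofReal, max_eq_left (by linarith), ← EReal.coe_add]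
      simp
  · rw [if_neg hx, gfun_pos α β (norm_pos_iff.2 hx), EReal.coe_ennreal_ofReal,
      max_eq_left (by linarith [prof_one_le h (norm_pos_iff.2 hx)]), ← EReal.coe_add]
    congr 1
    rw [sub_add_cancel]
    rfl

lemma discrete_eq (h : α < β) {N : ℕ} (X : Fin N → E d) :
    (∑ i, ∑ j, if i = j then 0 else W α β (X i - X j))
      = ((D (wfun α β) X : ℝ≥0∞) : EReal)
        + ((∑ i : Fin N, ∑ j : Fin N, if i = j then 0 else prof α β 1 : ℝ) : EReal) := by
  let f : ℝ≥0∞ →+ EReal := ⟨⟨fun x => (x : EReal), EReal.coe_ennreal_zero⟩, EReal.coe_ennreal_add⟩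
  let g : ℝ →+ EReal := ⟨⟨fun x => (x : EReal), EReal.coe_zero⟩, EReal.coe_add⟩
  have hf : ((D (wfun α β) X : ℝ≥0∞) : EReal) = f (D (wfun α β) X) := rfl
  have hg : ((∑ i : Fin N, ∑ j : Fin N, if i = j then 0 else prof α β 1 : ℝ) : EReal)
      = g (∑ i : Fin N, ∑ j : Fin N, if i = j then 0 else prof α β 1) := rfl
  rw [hf, hg]
  unfold D
  simp only [map_sum]
  rw [← Finset.sum_add_distrib]
  refine Finset.sum_congr rfl fun i _ => ?_
  rw [← Finset.sum_add_distrib]
  refine Finset.sum_congr rfl fun j _ => ?_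
  split_ifs with hij
  · rw [map_zero, map_zero, add_zero]
  · exact W_eq h _

lemma two_pos' : (0 : EReal) < 2 := by
  exact_mod_cast (two_pos : (0 : ℝ) < 2)

lemma two_ne_top' : (2 : EReal) ≠ ⊤ := by
  have : (2 : EReal) = ((2 : ℝ) : EReal) := by norm_cast
  rw [this]
  exact EReal.coe_ne_top 2

lemma discrete_le_iff (h : α < β) {N : ℕ} (X Y : Fin N → E d) :
    discreteEnergy α β X ≤ discreteEnergy α β Y ↔ D (wfun α β) X ≤ D (wfun α β) Y := by
  unfold discreteEnergy
  rw [discrete_eq h, discrete_eq h,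
    (EReal.strictMono_div_right_of_pos two_pos' two_ne_top').le_iff_le]
  constructor
  · intro h1
    by_contra h2
    push Not at h2
    have h3 : ((D (wfun α β) Y : ℝ≥0∞) : EReal) < ((D (wfun α β) X : ℝ≥0∞) : EReal) :=
      EReal.coe_ennreal_lt_coe_ennreal_iff.2 h2
    exact absurd h1 (not_le.2 (EReal.add_lt_add_right_coe h3 _))
  · intro h1
    exact add_le_add_left (EReal.coe_ennreal_le_coe_ennreal_iff.2 h1) _

lemma pos_neg_identity (h : α < β) (x : E d) :
    (W α β x).toENNReal + ENNReal.ofReal (-prof α β 1)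
      = (wfun α β x + ENNReal.ofReal (prof α β 1)) + (-W α β x).toENNReal := by
  rw [W_eq h]
  set p := prof α β 1 with hp
  rcases eq_or_ne (wfun α β x) ∞ with ht | ht
  · rw [ht]
    simp
  · obtain ⟨t, ht0, htw⟩ : ∃ t : ℝ, 0 ≤ t ∧ wfun α β x = ENNReal.ofReal t :=
      ⟨(wfun α β x).toReal, ENNReal.toReal_nonneg, (ENNReal.ofReal_toReal ht).symm⟩
    rw [htw, EReal.coe_ennreal_ofReal, max_eq_left ht0, ← EReal.coe_add, ← EReal.coe_neg,
      EReal.real_coe_toENNReal, EReal.real_coe_toENNReal]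
    rcases le_total 0 p with hp0 | hp0
    · rw [ENNReal.ofReal_add ht0 hp0, ENNReal.ofReal_of_nonpos (by linarith : -p ≤ 0),
        ENNReal.ofReal_of_nonpos (by linarith : -(t + p) ≤ 0)]
    · rw [ENNReal.ofReal_of_nonpos hp0, add_zero]
      rcases le_total 0 (t + p) with h1 | h1
      · rw [← ENNReal.ofReal_add h1 (by linarith), ENNReal.ofReal_of_nonpos
          (by linarith : -(t + p) ≤ 0), add_zero]
        congr 1
        ring
      · rw [ENNReal.ofReal_of_nonpos h1, zero_add, ← ENNReal.ofReal_add ht0 (by linarith)]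
        congr 1
        ring

lemma neg_le (h : α < β) (x : E d) :
    (-W α β x).toENNReal ≤ ENNReal.ofReal (-prof α β 1) := by
  rw [← EReal.real_coe_toENNReal]
  refine EReal.toENNReal_le_toENNReal ?_
  rw [EReal.coe_neg, EReal.neg_le_neg_iff, W_eq h]
  have h1 : (0 : EReal) ≤ ((wfun α β x : ℝ≥0∞) : EReal) := EReal.coe_ennreal_nonneg _
  calc ((prof α β 1 : ℝ) : EReal) = 0 + ((prof α β 1 : ℝ) : EReal) := (zero_add _).symm
    _ ≤ _ := add_le_add_left h1 _

lemma arith_identity {A B C' : ℝ≥0∞} {p : ℝ}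
    (h1 : A + ENNReal.ofReal (-p) = (C' + ENNReal.ofReal p) + B) (hBfin : B ≠ ∞) :
    ((A : ℝ≥0∞) : EReal) - ((B : ℝ≥0∞) : EReal) = ((C' : ℝ≥0∞) : EReal) + ((p : ℝ) : EReal) := by
  rcases eq_or_ne A ∞ with hAt | hAt
  · have hCt : C' = ∞ := by
      by_contra hne
      rw [hAt, top_add] at h1
      exact (ENNReal.add_ne_top.2 ⟨ENNReal.add_ne_top.2 ⟨hne, ENNReal.ofReal_ne_top⟩, hBfin⟩) h1.symm
    rw [hAt, hCt]
    obtain ⟨b, hb0, hb⟩ : ∃ b : ℝ, 0 ≤ b ∧ B = ENNReal.ofReal b :=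
      ⟨B.toReal, ENNReal.toReal_nonneg, (ENNReal.ofReal_toReal hBfin).symm⟩
    rw [hb, EReal.coe_ennreal_ofReal, max_eq_left hb0]
    simp
  · have hCt : C' ≠ ∞ := by
      intro heq
      rw [heq] at h1
      simp only [top_add] at h1
      exact (ENNReal.add_ne_top.2 ⟨hAt, ENNReal.ofReal_ne_top⟩) h1
    obtain ⟨b, hb0, hb⟩ : ∃ b : ℝ, 0 ≤ b ∧ B = ENNReal.ofReal b :=
      ⟨B.toReal, ENNReal.toReal_nonneg, (ENNReal.ofReal_toReal hBfin).symm⟩
    obtain ⟨a, ha0, ha⟩ : ∃ b : ℝ, 0 ≤ b ∧ A = ENNReal.ofReal b :=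
      ⟨A.toReal, ENNReal.toReal_nonneg, (ENNReal.ofReal_toReal hAt).symm⟩
    obtain ⟨c, hc0, hc⟩ : ∃ b : ℝ, 0 ≤ b ∧ C' = ENNReal.ofReal b :=
      ⟨(C').toReal, ENNReal.toReal_nonneg, (ENNReal.ofReal_toReal hCt).symm⟩
    rw [ha, hb, hc] at h1 ⊢
    rw [EReal.coe_ennreal_ofReal, max_eq_left ha0, EReal.coe_ennreal_ofReal, max_eq_left hb0,
      EReal.coe_ennreal_ofReal, max_eq_left hc0, ← EReal.coe_sub, ← EReal.coe_add]
    congr 1
    have h2 := congrArg ENNReal.toReal h1
    rw [ENNReal.toReal_add ENNReal.ofReal_ne_top ENNReal.ofReal_ne_top,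
      ENNReal.toReal_add (ENNReal.add_ne_top.2 ⟨ENNReal.ofReal_ne_top, ENNReal.ofReal_ne_top⟩)
        ENNReal.ofReal_ne_top,
      ENNReal.toReal_add ENNReal.ofReal_ne_top ENNReal.ofReal_ne_top,
      ENNReal.toReal_ofReal ha0, ENNReal.toReal_ofReal hb0, ENNReal.toReal_ofReal hc0] at h2
    rcases le_total 0 p with hp0 | hp0
    · rw [ENNReal.toReal_ofReal hp0, ENNReal.ofReal_of_nonpos (by linarith : -p ≤ 0)] at h2
      simp at h2
      linarith
    · rw [ENNReal.toReal_ofReal (by linarith : 0 ≤ -p), ENNReal.ofReal_of_nonpos hp0] at h2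
      simp at h2
      linarith

lemma energy_eq (h : α < β) (ρ : Measure (E d)) [IsProbabilityMeasure ρ] :
    energy α β ρ = (((C (wfun α β) ρ : ℝ≥0∞) : EReal) + ((prof α β 1 : ℝ) : EReal)) / 2 := by
  unfold energy
  congr 1
  set A := ∫⁻ x, ∫⁻ y, (W α β (x - y)).toENNReal ∂ρ ∂ρ with hA
  set B := ∫⁻ x, ∫⁻ y, (-W α β (x - y)).toENNReal ∂ρ ∂ρ with hB
  set p := prof α β 1 with hp
  have hmeas : Measurable (fun q : E d × E d => wfun α β (q.1 - q.2)) :=
    (continuous_wfun h).measurable.comp (measurable_fst.sub measurable_snd)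
  have h1 : A + ENNReal.ofReal (-p) = (C (wfun α β) ρ + ENNReal.ofReal p) + B := by
    have hL : ∫⁻ x, ∫⁻ y, ((W α β (x - y)).toENNReal + ENNReal.ofReal (-p)) ∂ρ ∂ρ
        = A + ENNReal.ofReal (-p) := by
      have : ∀ x, ∫⁻ y, ((W α β (x - y)).toENNReal + ENNReal.ofReal (-p)) ∂ρ
          = (∫⁻ y, (W α β (x - y)).toENNReal ∂ρ) + ENNReal.ofReal (-p) := by
        intro x
        rw [lintegral_add_right _ measurable_const, lintegral_const, measure_univ, mul_one]
      rw [lintegral_congr this, lintegral_add_right _ measurable_const, lintegral_const,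
        measure_univ, mul_one]
    have hR : ∫⁻ x, ∫⁻ y, ((wfun α β (x - y) + ENNReal.ofReal p)
          + (-W α β (x - y)).toENNReal) ∂ρ ∂ρ
        = (C (wfun α β) ρ + ENNReal.ofReal p) + B := by
      have : ∀ x, ∫⁻ y, ((wfun α β (x - y) + ENNReal.ofReal p)
          + (-W α β (x - y)).toENNReal) ∂ρ
          = ((∫⁻ y, wfun α β (x - y) ∂ρ) + ENNReal.ofReal p)
            + (∫⁻ y, (-W α β (x - y)).toENNReal ∂ρ) := by
        intro x
        have hc1 : Continuous (fun y : E d => x - y) := continuous_const.sub continuous_id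
        have hm : Measurable (fun y : E d => wfun α β (x - y)) :=
          (Continuous.comp (continuous_wfun (d := d) h) hc1).measurable
        have hm' : Measurable (fun y : E d => wfun α β (x - y) + ENNReal.ofReal p) :=
          hm.add measurable_const
        rw [lintegral_add_left hm', lintegral_add_right _ measurable_const,
          lintegral_const, measure_univ, mul_one]
      have hm2 : Measurable (fun x => ∫⁻ y, wfun α β (x - y) ∂ρ) :=
        hmeas.lintegral_prod_right'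
      have hm2' : Measurable (fun x : E d => (∫⁻ y, wfun α β (x - y) ∂ρ) + ENNReal.ofReal p) :=
        hm2.add measurable_const
      rw [lintegral_congr this, lintegral_add_left hm2',
        lintegral_add_right _ measurable_const, lintegral_const, measure_univ, mul_one]
      rfl
    rw [← hL, ← hR]
    exact lintegral_congr fun x => lintegral_congr fun y => pos_neg_identity h (x - y)
  have hBfin : B ≠ ∞ := by
    have : B ≤ ENNReal.ofReal (-p) := by
      calc B ≤ ∫⁻ x, ∫⁻ y, ENNReal.ofReal (-p) ∂ρ ∂ρ :=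
            lintegral_mono fun x => lintegral_mono fun y => neg_le h (x - y)
        _ = _ := by simp
    exact ne_top_of_le_ne_top ENNReal.ofReal_ne_top this
  exact arith_identity h1 hBfin

lemma energy_le (h : α < β) (ρ ρ' : Measure (E d)) [IsProbabilityMeasure ρ]
    [IsProbabilityMeasure ρ'] (hle : C (wfun α β) ρ ≤ C (wfun α β) ρ') :
    energy α β ρ ≤ energy α β ρ' := by
  rw [energy_eq h, energy_eq h,
    (EReal.strictMono_div_right_of_pos two_pos' two_ne_top').le_iff_le]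
  exact add_le_add_left (EReal.coe_ennreal_le_coe_ennreal_iff.2 hle) _

lemma energy_ne_top (h : α < β) (ρ : Measure (E d)) [IsProbabilityMeasure ρ]
    (hfin : C (wfun α β) ρ ≠ ∞) : energy α β ρ ≠ ⊤ := by
  rw [energy_eq h]
  obtain ⟨c, hc0, hc⟩ : ∃ b : ℝ, 0 ≤ b ∧ C (wfun α β) ρ = ENNReal.ofReal b :=
    ⟨(C (wfun α β) ρ).toReal, ENNReal.toReal_nonneg, (ENNReal.ofReal_toReal hfin).symm⟩
  have h2 : (2 : EReal) = ((2 : ℝ) : EReal) := by norm_cast
  rw [hc, EReal.coe_ennreal_ofReal, max_eq_left hc0, ← EReal.coe_add, h2, ← EReal.coe_div]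
  exact EReal.coe_ne_top _

end bridge

/-- For every `d ≥ 1` and all `-d < α < β` (in particular for all `α ∈ (-d, 2-d]`, `β > α`):
discrete minimizers exist for every `N`, and minimizers of the discrete energy converge, up to
translations and subsequences and in the narrow sense, to (finite energy) minimizers of the
continuum energy as `N → ∞`. -/
theorem result (d : ℕ) (hd : 1 ≤ d) (α β : ℝ) (hα : -(d : ℝ) < α) (hαβ : α < β) :
    (∀ N : ℕ, ∃ X : Fin N → E d, IsDiscreteMinimizer α β X) ∧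
    ∀ N : ℕ → ℕ, (∀ k, 2 ≤ N k) → Tendsto N atTop atTop →
      ∀ X : (k : ℕ) → Fin (N k) → E d, (∀ k, IsDiscreteMinimizer α β (X k)) →
        ∃ a : ℕ → E d, ∀ φ : ℕ → ℕ, StrictMono φ → ∃ ψ : ℕ → ℕ, StrictMono ψ ∧
          ∃ ρ : Measure (E d), IsContinuumMinimizer α β ρ ∧ energy α β ρ ≠ ⊤ ∧
            ∀ f : E d →ᵇ ℝ, Tendsto
              (fun n => (∑ i, f (X (φ (ψ n)) i - a (φ (ψ n)))) / (N (φ (ψ n)) : ℝ))
              atTop (𝓝 (∫ x, f x ∂ρ)) := by
  have hcase : Pool.Agent.R221.PL.CaseA (Pool.Agent.R221.PL.wfun α β : E d → ℝ≥0∞) ∨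
      Pool.Agent.R221.PL.CaseB (Pool.Agent.R221.PL.wfun α β : E d → ℝ≥0∞) := by
    rcases le_or_gt 0 β with hβ | hβ
    · exact Or.inl (Pool.Agent.R221.PL.caseA hd hα hαβ hβ)
    · exact Or.inr (Pool.Agent.R221.PL.caseB hd hα hαβ hβ)
  have hwg : ∀ x : E d, Pool.Agent.R221.PL.wfun α β x = Pool.Agent.R221.PL.gfun α β ‖x‖ :=
    fun _ => rfl
  have hg := Pool.Agent.R221.PL.strictMonoOn_gfun hαβ
  have hwc := Pool.Agent.R221.PL.continuous_wfun (d := d) hαβ
  refine ⟨fun N => ?_, ?_⟩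
  · obtain ⟨X, hX⟩ := Pool.Agent.R221.PL.exists_minimizer hwg hg hwc N
    exact ⟨X, fun Y => (discrete_le_iff hαβ X Y).2 (hX Y)⟩
  · intro N hN2 hN X hX
    obtain ⟨a, ha⟩ := Pool.Agent.R221.PL.abstract_conv hwg hg hwc hcase hN2 hN X
      (fun k Y => (discrete_le_iff hαβ (X k) Y).1 (hX k Y))
    refine ⟨a, fun φ hφ => ?_⟩
    obtain ⟨ψ, hψ, μ, hμ, hlim⟩ := ha φ hφ
    refine ⟨ψ, hψ, (μ : Measure (E d)), ⟨inferInstance, fun ρ' hρ' => ?_⟩, ?_, ?_⟩
    · exact energy_le hαβ _ _ (hμ ρ' hρ')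
    · refine energy_ne_top hαβ _ ?_
      rcases hcase with ⟨-, ρ0, hρ0, hfin⟩ | ⟨K, -, -, ν, hν, -, -, c, -, -, hc⟩
      · exact ne_top_of_le_ne_top hfin (hμ ρ0 hρ0)
      · exact ne_top_of_le_ne_top ENNReal.ofReal_ne_top ((hμ ν hν).trans hc)
    · intro f
      have h1 := (ProbabilityMeasure.tendsto_iff_forall_integral_tendsto.1 hlim) f
      refine h1.congr fun n => ?_
      change ∫ x, f x ∂(Pool.Agent.R221.PL.emp (fun i => X (φ (ψ n)) i - a (φ (ψ n)))) = _
      unfold Pool.Agent.R221.PL.emp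
      rw [integral_smul_measure, integral_finsetSum_measure
        (fun i _ => f.integrable _)]
      simp only [integral_dirac, smul_eq_mul, ENNReal.toReal_inv, ENNReal.toReal_natCast]
      rw [div_eq_inv_mul]

end Pool.Agent.Results.MP_bbfed3_an.DiscreteToContinuum
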